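import Mathlib
import Pool.Agent.MP_136091_gt.Main

open CategoryTheory

namespace Pool.Agent.Results.MP_136091_gt.MonoidFinite

universe u

/-- The Quillen negation monoid of the category of topological spaces is finite. A word
`w : List Bool` (with `true` for the left orthogonal `l` and `false` for the right orthogonal `r`,
letters applied from left to right) acts on the classes of morphisms of `TopCat`, and only
finitely many operators `C ↦ C ^ w` arise. In particular every class of morphisms has a finite
orbit, with a bound that does not depend on the class. -/
theorem result :
    (Set.range fun (w : List Bool) (C : MorphismProperty TopCat.{u}) =>
      w.foldl (fun D b => cond b D.llp D.rlp) C).Finite :=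
  QNeg.finite_act_Top

end Pool.Agent.Results.MP_136091_gt.MonoidFinite
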